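import Mathlib

/-!
# Chebyshev's inequality for window means
-/

set_option autoImplicit false

namespace Pool.Agent.T2h20.SR

open MeasureTheory Set Filter Function

theorem gcont {h : ℝ → ℝ} (hc : Continuous h) (V : ℝ) :
    Continuous fun t => ∫ c in (0:ℝ)..V, h (t + c) :=
  intervalIntegral.continuous_parametric_intervalIntegral_of_continuous'
    (by fun_prop : Continuous (uncurry fun t c : ℝ => h (t + c))) 0 V

theorem int_win {h : ℝ → ℝ} (hc : Continuous h) (h0 : ∀ u, 0 ≤ h u) {T V : ℝ} (hT : 0 ≤ T)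
    (hV : 0 ≤ V) (hVT : V ≤ 2 * T) :
    ∫ t in (0:ℝ)..T, ∫ c in (0:ℝ)..V, h (t + c) ≤ V * ∫ u in (0:ℝ)..(3 * T), h u := by
  have hint : Integrable (uncurry fun t c : ℝ => h (t + c))
      ((volume.restrict (uIoc 0 T)).prod (volume.restrict (Ioc 0 V))) := by
    rw [Measure.prod_restrict]
    have hF : Continuous (uncurry fun t c : ℝ => h (t + c)) := by fun_prop
    have h1 : IntegrableOn (uncurry fun t c : ℝ => h (t + c)) (Icc 0 T ×ˢ Icc 0 V)
        (volume.prod volume) :=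
      hF.continuousOn.integrableOn_compact (isCompact_Icc.prod isCompact_Icc)
    refine h1.mono_set ?_
    rw [uIoc_of_le hT]
    exact prod_mono Ioc_subset_Icc_self Ioc_subset_Icc_self
  have e1 : ∫ t in (0:ℝ)..T, ∫ c in (0:ℝ)..V, h (t + c) =
      ∫ c in (0:ℝ)..V, ∫ t in (0:ℝ)..T, h (t + c) := by
    have := intervalIntegral_integral_swap hint
    simp only [intervalIntegral.integral_of_le hV]
    exact this
  rw [e1]
  have h2 : ∀ c ∈ Icc 0 V, ∫ t in (0:ℝ)..T, h (t + c) ≤ ∫ u in (0:ℝ)..(3 * T), h u := by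
    intro c hcV
    rw [intervalIntegral.integral_comp_add_right h c]
    refine intervalIntegral.integral_mono_interval (by linarith [hcV.1]) (by linarith)
      (by linarith [hcV.2]) (Eventually.of_forall h0) (hc.intervalIntegrable _ _)
  have h3 : Continuous fun c => ∫ t in (0:ℝ)..T, h (t + c) := by
    have := gcont hc T
    simpa only [add_comm] using this
  calc ∫ c in (0:ℝ)..V, ∫ t in (0:ℝ)..T, h (t + c)
      ≤ ∫ _c in (0:ℝ)..V, ∫ u in (0:ℝ)..(3 * T), h u :=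
        intervalIntegral.integral_mono_on hV (h3.intervalIntegrable _ _)
          (continuous_const.intervalIntegrable _ _) h2
    _ = _ := by rw [intervalIntegral.integral_const, sub_zero, smul_eq_mul]

/-- Chebyshev on an interval -/
theorem cheb1 {g : ℝ → ℝ} (hc : Continuous g) (h0 : ∀ u, 0 ≤ g u) {T lam : ℝ} (hT : 0 ≤ T)
    (hl : 0 < lam) : volume {t | t ∈ Icc 0 T ∧ lam < g t} ≤
      ENNReal.ofReal ((∫ t in (0:ℝ)..T, g t) / lam) := by
  have h1 : ∫⁻ t in Icc 0 T, ENNReal.ofReal (g t) = ENNReal.ofReal (∫ t in (0:ℝ)..T, g t) := by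
    rw [intervalIntegral.integral_of_le hT, ← integral_Icc_eq_integral_Ioc]
    rw [ofReal_integral_eq_lintegral_ofReal]
    · exact hc.continuousOn.integrableOn_compact isCompact_Icc
    · exact Eventually.of_forall h0
  have h2 := meas_ge_le_lintegral_div (μ := volume.restrict (Icc 0 T))
    (f := fun t => ENNReal.ofReal (g t)) hc.measurable.ennreal_ofReal.aemeasurable
    (ε := ENNReal.ofReal lam) (by rw [Ne, ENNReal.ofReal_eq_zero, not_le]; exact hl)
    ENNReal.ofReal_ne_top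
  rw [h1, ← ENNReal.ofReal_div_of_pos hl] at h2
  refine le_trans ?_ h2
  rw [Measure.restrict_apply' measurableSet_Icc]
  refine measure_mono ?_
  rintro t ⟨ht, ht'⟩
  exact ⟨ENNReal.ofReal_le_ofReal ht'.le, ht⟩

theorem win {h : ℝ → ℝ} (hc : Continuous h) (h0 : ∀ u, 0 ≤ h u) {T V lam : ℝ} (hT : 0 ≤ T)
    (hV : 0 < V) (hVT : V ≤ 2 * T) (hl : 0 < lam) :
    volume {t | t ∈ Icc 0 T ∧ lam * V < ∫ c in (0:ℝ)..V, h (t + c)} ≤
      ENNReal.ofReal ((∫ u in (0:ℝ)..(3 * T), h u) / lam) := by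
  refine (cheb1 (gcont hc V) (fun t => ?_) hT (by positivity)).trans
    (ENNReal.ofReal_le_ofReal ?_)
  · exact intervalIntegral.integral_nonneg hV.le fun c _ => h0 _
  · rw [div_le_div_iff₀ (by positivity) hl]
    have := mul_le_mul_of_nonneg_left (int_win hc h0 hT hV.le hVT) hl.le
    linarith

/-- the dyadic windows -/
theorem dyadic {h : ℝ → ℝ} (hc : Continuous h) (h0 : ∀ u, 0 ≤ h u) {T W L t : ℝ} (hW : 1 ≤ W)
    (hT : 1 ≤ T) (hL : 0 ≤ L) (ht : t ∈ Icc 0 T)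
    (hU : ∃ U : ℝ, W ≤ U ∧ U ≤ T ∧ L * U < ∫ c in (0:ℝ)..U, h (t + c)) :
    ∃ i ∈ Finset.range (⌊2 * Real.log (2 * T)⌋₊ + 1), 2 ^ i * W ≤ 2 * T ∧
      t ∈ {t | t ∈ Icc 0 T ∧ (L / 2) * (2 ^ i * W) < ∫ c in (0:ℝ)..(2 ^ i * W), h (t + c)} := by
  classical
  obtain ⟨U, hWU, hUT, hU⟩ := hU
  have hW0 : 0 < W := by linarith
  have hex : ∃ i : ℕ, U ≤ 2 ^ i * W := by
    obtain ⟨i, hi⟩ := pow_unbounded_of_one_lt (U / W) (one_lt_two)
    exact ⟨i, by rw [div_lt_iff₀ hW0] at hi; exact hi.le⟩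
  have h1 := Nat.find_spec hex
  set i := Nat.find hex with hi
  have h2 : 2 ^ i * W ≤ 2 * U := by
    rcases Nat.eq_zero_or_pos i with h | h
    · rw [h, pow_zero, one_mul]; linarith
    · have h3 := Nat.find_min hex (m := i - 1) (by omega)
      rw [not_le] at h3
      have e : (2:ℝ) ^ i = 2 * 2 ^ (i - 1) := by
        rw [← pow_succ']
        congr 1
        omega
      rw [e, mul_assoc]
      linarith
  have h3 : (2:ℝ) ^ i * W ≤ 2 * T := by linarith
  refine ⟨i, ?_, h3, ht, ?_⟩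
  · rw [Finset.mem_range, Nat.lt_succ_iff]
    refine Nat.le_floor ?_
    have h4 : (2:ℝ) ^ i ≤ 2 * T := by
      have : (2:ℝ) ^ i * 1 ≤ 2 ^ i * W := by gcongr
      linarith
    have h5 := Real.log_le_log (by positivity) h4
    rw [Real.log_pow] at h5
    have h6 := Real.log_two_gt_d9
    have h7 : (0:ℝ) ≤ i := Nat.cast_nonneg i
    nlinarith
  · have hU0 : 0 ≤ U := by linarith
    have h4 : ∫ c in (0:ℝ)..U, h (t + c) ≤ ∫ c in (0:ℝ)..(2 ^ i * W), h (t + c) :=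
      intervalIntegral.integral_mono_interval le_rfl hU0 h1 (Eventually.of_forall fun c => h0 _)
        ((hc.comp (continuous_const.add continuous_id)).intervalIntegrable _ _)
    have h5 : (L / 2) * (2 ^ i * W) ≤ L * U := by nlinarith
    linarith

/-- the times with a large window mean -/
theorem windows {h : ℝ → ℝ} (hc : Continuous h) (h0 : ∀ u, 0 ≤ h u) {T W L : ℝ} (hW : 1 ≤ W)
    (hT : 1 ≤ T) (hL : 0 < L) :
    volume {t | t ∈ Icc 0 T ∧ ∃ U : ℝ, W ≤ U ∧ U ≤ T ∧ L * U < ∫ c in (0:ℝ)..U, h (t + c)} ≤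
      ENNReal.ofReal ((2 * Real.log (2 * T) + 1) * ((∫ u in (0:ℝ)..(3 * T), h u) / (L / 2))) := by
  classical
  set I : ℝ := ∫ u in (0:ℝ)..(3 * T), h u with hI
  have hI0 : 0 ≤ I := intervalIntegral.integral_nonneg (by linarith) fun u _ => h0 u
  have hlog : 0 ≤ Real.log (2 * T) := Real.log_nonneg (by linarith)
  have hsub : {t | t ∈ Icc 0 T ∧ ∃ U : ℝ, W ≤ U ∧ U ≤ T ∧ L * U < ∫ c in (0:ℝ)..U, h (t + c)} ⊆
      ⋃ i ∈ Finset.range (⌊2 * Real.log (2 * T)⌋₊ + 1), {t | (2:ℝ) ^ i * W ≤ 2 * T ∧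
        (t ∈ Icc 0 T ∧ (L / 2) * (2 ^ i * W) < ∫ c in (0:ℝ)..(2 ^ i * W), h (t + c))} := by
    rintro t ⟨ht, hU⟩
    obtain ⟨i, hi, h1, h2⟩ := dyadic hc h0 hW hT hL.le ht hU
    exact mem_biUnion hi ⟨h1, h2⟩
  refine (measure_mono hsub).trans ((measure_biUnion_finset_le _ _).trans ?_)
  have h1 : ∀ i ∈ Finset.range (⌊2 * Real.log (2 * T)⌋₊ + 1),
      volume {t | (2:ℝ) ^ i * W ≤ 2 * T ∧
        (t ∈ Icc 0 T ∧ (L / 2) * (2 ^ i * W) < ∫ c in (0:ℝ)..(2 ^ i * W), h (t + c))} ≤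
      ENNReal.ofReal (I / (L / 2)) := by
    intro i _
    by_cases h2 : (2:ℝ) ^ i * W ≤ 2 * T
    · refine (measure_mono ?_).trans (win hc h0 (by linarith) (by positivity) h2 (by positivity))
      exact fun t ht => ht.2
    · have e : {t : ℝ | (2:ℝ) ^ i * W ≤ 2 * T ∧
        (t ∈ Icc 0 T ∧ (L / 2) * (2 ^ i * W) < ∫ c in (0:ℝ)..(2 ^ i * W), h (t + c))} = ∅ := by
        ext t
        simp only [mem_ofPred_eq, mem_empty_iff_false, iff_false]
        exact fun h3 => h2 h3.1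
      rw [e, measure_empty]
      exact zero_le
  refine (Finset.sum_le_sum h1).trans ?_
  rw [Finset.sum_const, Finset.card_range, nsmul_eq_mul, ENNReal.ofReal_mul (by positivity)]
  refine mul_le_mul' ?_ le_rfl
  rw [← ENNReal.ofReal_natCast]
  refine ENNReal.ofReal_le_ofReal ?_
  push_cast
  have := Nat.floor_le (show 0 ≤ 2 * Real.log (2 * T) by positivity)
  linarith

/-- a product of at most `n` nonnegative numbers -/
theorem prod_le_pow {ι : Type*} {n : ℕ} (F : Finset ι) (hk : F.card ≤ n) (x : ι → ℝ)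
    (hx : ∀ j, 0 ≤ x j) : ∏ j ∈ F, x j ≤ 1 + ∑ j ∈ F, x j ^ n := by
  have hs : 0 ≤ ∑ j ∈ F, x j ^ n := Finset.sum_nonneg fun j _ => pow_nonneg (hx j) n
  rcases F.eq_empty_or_nonempty with h0 | h0
  · subst h0
    simp
  obtain ⟨j0, hj0F, hj0⟩ := Finset.exists_max_image F x h0
  by_cases h1 : x j0 ≤ 1
  · have h2 : ∏ j ∈ F, x j ≤ 1 :=
      Finset.prod_le_one (fun j _ => hx j) fun j hj => (hj0 j hj).trans h1
    linarith
  · rw [not_le] at h1
    have h2 : ∏ j ∈ F, x j ≤ ∏ _j ∈ F, x j0 :=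
      Finset.prod_le_prod (fun j _ => hx j) fun j hj => hj0 j hj
    rw [Finset.prod_const] at h2
    have h3 : x j0 ^ F.card ≤ x j0 ^ n := pow_le_pow_right₀ h1.le hk
    have h4 : x j0 ^ n ≤ ∑ j ∈ F, x j ^ n :=
      Finset.single_le_sum (f := fun j => x j ^ n) (fun j _ => pow_nonneg (hx j) n) hj0F
    linarith

end Pool.Agent.T2h20.SR
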